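import Pool.Agent.H31.DP.Targets
import Pool.Agent.H92.LF.Mua

/-!
The module MU of the project DP on `MP_c59857_nt`: approximation of the Möbius product in the mean.
-/

set_option autoImplicit false

open Finset Filter Topology

namespace Pool.Agent.H46.DP

open Pool.Agent.H31.DP
open Pool.Agent.H91.LF (lz Bdd Mean sqw)
open Pool.Agent.H92.LF

theorem pf_MU : StatementMU := by
  classical
  intro r β δ η hδ hη
  obtain ⟨w₀, hw₀⟩ := exists_nat_ge (12 * (r : ℝ) / η)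
  obtain ⟨w, hw⟩ : ∃ w : ℕ, w = w₀ + 1 := ⟨_, rfl⟩
  have hwp : 0 < w := by omega
  have hw0 : (0 : ℝ) < w := by exact_mod_cast hwp
  have hwη : 2 * ((r : ℝ) * (3 / w)) ≤ η / 2 := by
    have h1 : 12 * (r : ℝ) / η ≤ w := by
      refine hw₀.trans ?_
      rw [hw]
      push_cast
      linarith
    rw [div_le_iff₀ hη] at h1
    have h2 : 2 * ((r : ℝ) * (3 / w)) = 6 * r / w := by ring
    rw [h2, div_le_iff₀ hw0]
    nlinarith
  obtain ⟨B, hB⟩ : ∃ B : ℕ, ∀ i, |β i| ≤ B := by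
    refine ⟨(∑ i, |β i|).toNat, fun i => ?_⟩
    rw [Int.toNat_of_nonneg (Finset.sum_nonneg fun _ _ => abs_nonneg _)]
    exact Finset.single_le_sum (f := fun i => |β i|) (fun j _ => abs_nonneg _) (mem_univ i)
  obtain ⟨N₀, hN₀⟩ := exists_nat_ge (2 * (2 * ((r : ℝ) * (2 * B + w + 2))) / η)
  refine ⟨w, N₀, fun N hN => ?_⟩
  have hNr : (N₀ : ℝ) ≤ N := by exact_mod_cast hN
  have hC : 2 * ((r : ℝ) * (2 * B + w + 2)) ≤ η / 2 * N := by
    have h1 : 2 * (2 * ((r : ℝ) * (2 * B + w + 2))) / η ≤ N := hN₀.trans hNr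
    rw [div_le_iff₀ hη] at h1
    linarith
  have h1 : ∑ n ∈ Icc 1 N, |fm β δ n - (∏ i ∈ Finset.univ.filter (fun i => Odd (δ i)),
        lz ((n : ℤ) + β i)) * ∏ i, sqw w ((n : ℤ) + β i)| ≤
      ∑ n ∈ Icc 1 N, 2 * ∑ i, if Bad w ((n : ℤ) + β i) then (1 : ℝ) else 0 := by
    refine Finset.sum_le_sum fun n _ => ?_
    exact diff_le (fun i => (n : ℤ) + β i) δ hδ w
  refine h1.trans ?_
  rw [← Finset.mul_sum, Finset.sum_comm]
  have h2 : ∀ i ∈ (univ : Finset (Fin r)),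
      (∑ n ∈ Icc 1 N, if Bad w ((n : ℤ) + β i) then (1 : ℝ) else 0) ≤
      3 / w * N + (2 * B + w + 2) := by
    intro i _
    have h3 : (∑ n ∈ Icc 1 N, if Bad w ((n : ℤ) + β i) then (1 : ℝ) else 0) =
        (((Icc 1 N).filter fun n : ℕ => Bad w ((n : ℤ) + β i)).card : ℝ) := by
      rw [Finset.sum_boole]
    rw [h3]
    have h4 := card_bad_le w hwp (β i) B (hB i) N
    have h5 := sqrt_le_aux w B N hwp
    have hN0 : (0 : ℝ) ≤ N := Nat.cast_nonneg _
    have hw1 : (1 : ℝ) ≤ w := by exact_mod_cast hwp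
    have h6 : ((N : ℝ) + 1) * (1 / w) = N / w + 1 / w := by ring
    have h7 : 3 / (w : ℝ) * N = 2 * (N / w) + N / w := by ring
    have h8 : (1 : ℝ) / w ≤ 1 := by
      rw [div_le_one hw0]
      exact hw1
    have h9 : (0 : ℝ) ≤ N / w := by positivity
    rw [h7]
    linarith
  have h8 := Finset.sum_le_sum h2
  rw [Finset.sum_const, nsmul_eq_mul, Finset.card_univ, Fintype.card_fin] at h8
  have hN0 : (0 : ℝ) ≤ N := Nat.cast_nonneg _
  have h9 := mul_le_mul_of_nonneg_right hwη hN0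
  have h10 : 2 * ((r : ℝ) * (3 / w * N + (2 * B + w + 2))) =
      2 * ((r : ℝ) * (3 / w)) * N + 2 * ((r : ℝ) * (2 * B + w + 2)) := by ring
  linarith

end Pool.Agent.H46.DP
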